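import Pool.Agent.Mg.F71da5ea.Gd30c6a
import Pool.Agent.Mg.F71da5ea.G415590

open MeasureTheory Pool.Agent.MP_71da5e_an.A

/-- The Calderón problem with local data: for `n ≥ 3`, `Ω` a bounded connected open set with
smooth boundary, `Γ` any nonempty relatively open subset of the boundary and `q₁, q₂` bounded
complex potentials, equality of the local Cauchy data sets on `Γ` forces `q₁ = q₂` almost
everywhere in `Ω`. -/
theorem Pool.Agent.Results.MP_71da5e_an.Full.result {n : ℕ} (hn : 3 ≤ n)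
    (Ω : Set (EuclideanSpace ℝ (Fin n))) (ho : IsOpen Ω) (hb : Bornology.IsBounded Ω)
    (hc : IsConnected Ω) (hs : SmoothBoundary Ω) (Γ : Set (EuclideanSpace ℝ (Fin n)))
    (hΓ : ∃ U, IsOpen U ∧ Γ = U ∩ frontier Ω) (hne : Γ.Nonempty)
    (q₁ q₂ : EuclideanSpace ℝ (Fin n) → ℂ) (h₁ : MemLp q₁ ⊤ (volume.restrict Ω))
    (h₂ : MemLp q₂ ⊤ (volume.restrict Ω)) (h : cauchy Ω Γ q₁ = cauchy Ω Γ q₂) :
    q₁ =ᵐ[volume.restrict Ω] q₂ :=
  main Pool.Agent.MP_71da5e_an.L.core hn ⟨ho, hb, hs⟩ hc.isPreconnected hΓ hne h₁ h₂ h.subset
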