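import Pool.Agent.MP_71da5e_an.Two.Main

open MeasureTheory Pool.Agent.MP_71da5e_an.A

/-- The local Cauchy data determine the domain, with the potentials unknown: for `n ≥ 3`, let
`Ω₁`, `Ω₂` be bounded connected open sets with smooth boundary that agree in an open set `U`
which meets the boundary, and let `q₁`, `q₂` be bounded complex potentials on them. If the local
Cauchy data sets on `Γ = U ∩ ∂Ω₁ = U ∩ ∂Ω₂` are equal, then `Ω₁ = Ω₂`. -/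
theorem Pool.Agent.Results.MP_71da5e_an.UnknownDomain.result {n : ℕ} (hn : 3 ≤ n)
    (Ω₁ Ω₂ U : Set (EuclideanSpace ℝ (Fin n)))
    (ho₁ : IsOpen Ω₁) (hb₁ : Bornology.IsBounded Ω₁) (hc₁ : IsConnected Ω₁)
    (hs₁ : SmoothBoundary Ω₁)
    (ho₂ : IsOpen Ω₂) (hb₂ : Bornology.IsBounded Ω₂) (hc₂ : IsConnected Ω₂)
    (hs₂ : SmoothBoundary Ω₂)
    (hU : IsOpen U) (hUΩ : Ω₁ ∩ U = Ω₂ ∩ U) (hne : (U ∩ frontier Ω₁).Nonempty)
    (q₁ q₂ : EuclideanSpace ℝ (Fin n) → ℂ) (h₁ : MemLp q₁ ⊤ (volume.restrict Ω₁))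
    (h₂ : MemLp q₂ ⊤ (volume.restrict Ω₂)) (h : data Ω₁ U q₁ = data Ω₂ U q₂) : Ω₁ = Ω₂ :=
  two_main hn ⟨ho₁, hb₁, hs₁⟩ ⟨ho₂, hb₂, hs₂⟩ hc₁.isPreconnected hc₂.isPreconnected hU hUΩ hne
    h₁ h₂ h
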